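import Pool.Agent.Lib.MP_018e2a_an.INV.Char

/-!
# The action of the group of matrices
-/

set_option autoImplicit false

namespace Pool.Agent.Lib.MP_018e2a_an.INV

open Finset

section

variable {M : Type*} [CommMonoid M]

lemma pow_val_add (u : M) (hu : u * u = 1) (a b : ZMod 2) :
    u ^ (a + b).val = u ^ a.val * u ^ b.val := by
  have h : ∀ x : ZMod 2, x = 0 ∨ x = 1 := by decide
  rcases h a with rfl | rfl <;> rcases h b with rfl | rfl
  · simp
  · simp
  · simp
  · rw [show (1 : ZMod 2) + 1 = 0 from by decide, ZMod.val_zero, ZMod.val_one, pow_zero, pow_one, hu]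

/-- the action -/
noncomputable def Wm {n : ℕ} (U : P n → M) (g : G n) : M := ∏ p, U p ^ (g p).val

lemma Wm_add {n : ℕ} (U : P n → M) (hU : ∀ p, U p * U p = 1) (g h : G n) :
    Wm U (g + h) = Wm U g * Wm U h := by
  unfold Wm
  rw [← prod_mul_distrib]
  exact prod_congr rfl fun p _ => pow_val_add _ (hU p) _ _

/-- the generators -/
def Ug {n : ℕ} (r : Fin n → Fin n → M) (p : P n) : M :=
  r p.1.1 p.1.2 * if p.1.1 = p.1.2 then 1 else r p.1.2 p.1.1

lemma Ug_sq {n : ℕ} (r : Fin n → Fin n → M) (hr : ∀ i j, r i j * r i j = 1) (p : P n) :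
    Ug r p * Ug r p = 1 := by
  unfold Ug
  split_ifs
  · simp [hr]
  · rw [mul_mul_mul_comm, hr, hr, mul_one]

/-- the support -/
def supp {n : ℕ} (v : V n) : Finset (Fin n) := univ.filter fun i => v i ≠ 0

lemma supp_nonempty {n : ℕ} {v : V n} (h : v ≠ 0) : (supp v).Nonempty := by
  obtain ⟨i, hi⟩ := Function.ne_iff.1 h
  exact ⟨i, mem_filter.2 ⟨mem_univ _, hi⟩⟩

lemma Wm_K {n : ℕ} (r : Fin n → Fin n → M) (v : V n) :
    Wm (Ug r) (K v) = ∏ i ∈ supp v, ∏ j ∈ supp v, r i j := by
  classical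
  let r' : Fin n × Fin n → M := fun x => if v x.1 ≠ 0 ∧ v x.2 ≠ 0 then r x.1 x.2 else 1
  have h1 : ∏ i ∈ supp v, ∏ j ∈ supp v, r i j = ∏ x : Fin n × Fin n, r' x := by
    rw [← univ_product_univ, prod_product]
    unfold supp
    rw [prod_filter]
    refine prod_congr rfl fun i _ => ?_
    split_ifs with h
    · rw [prod_filter]
      refine prod_congr rfl fun j _ => ?_
      simp only [r']
      by_cases h2 : v j ≠ 0
      · rw [if_pos h2, if_pos ⟨h, h2⟩]
      · rw [if_neg h2, if_neg (fun h3 => h2 h3.2)]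
    · symm
      refine prod_eq_one fun j _ => ?_
      simp only [r']
      rw [if_neg (fun h3 => h h3.1)]
  have h2 : Wm (Ug r) (K v) = ∏ x ∈ (univ : Finset (Fin n × Fin n)).filter (fun x => x.1 ≤ x.2),
      (r' x * if x.1 = x.2 then 1 else r' x.swap) := by
    unfold Wm
    rw [Finset.prod_subtype (univ.filter fun x : Fin n × Fin n => x.1 ≤ x.2)
      (p := fun x : Fin n × Fin n => x.1 ≤ x.2) (by simp)]
    refine prod_congr rfl fun p _ => ?_
    have h3 : ∀ x : ZMod 2, x = 0 ∨ x = 1 := by decide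
    have h4 : (K v p) = v p.1.1 * v p.1.2 := rfl
    have h5 : (1 : ZMod 2) ≠ 0 := by decide
    rcases h3 (v p.1.1) with ha | ha <;> rcases h3 (v p.1.2) with hb | hb
    · simp [h4, ha, hb, r']
    · simp [h4, ha, hb, r']
    · simp [h4, ha, hb, r']
    · simp [h4, ha, hb, r', Ug, ZMod.val_one]
  have h3 : ∏ x ∈ (univ : Finset (Fin n × Fin n)).filter (fun x => x.1 ≤ x.2),
      (if x.1 = x.2 then 1 else r' x.swap) =
      ∏ x ∈ (univ : Finset (Fin n × Fin n)).filter (fun x => ¬ x.1 ≤ x.2), r' x := by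
    rw [prod_ite, prod_const_one, one_mul, filter_filter]
    refine prod_bij (fun x _ => x.swap) ?_ ?_ ?_ ?_
    · intro x hx
      rw [mem_filter] at hx ⊢
      refine ⟨mem_univ _, ?_⟩
      simp only [Prod.fst_swap, Prod.snd_swap]
      exact fun h => hx.2.2 (le_antisymm hx.2.1 h)
    · intro x _ y _ h
      exact Prod.swap_injective h
    · intro x hx
      rw [mem_filter] at hx
      have h4 := not_le.1 hx.2
      exact ⟨x.swap, mem_filter.2 ⟨mem_univ _, by simpa using h4.le, by simpa using h4.ne⟩,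
        Prod.swap_swap x⟩
    · intro x _
      rfl
  rw [h1, h2, prod_mul_distrib, h3, prod_filter_mul_prod_filter_not]

end

end Pool.Agent.Lib.MP_018e2a_an.INV
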