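import Mathlib

/-!
# Characters of `(ZMod 2)^P` and the sums `S q = ∑_v (-1)^{q(v)}` over quadratic forms `q`
-/

set_option autoImplicit false

namespace Pool.Agent.Lib.MP_018e2a_an.INV

open Finset

/-- the index pairs `i ≤ j` -/
abbrev P (n : ℕ) : Type := {p : Fin n × Fin n // p.1 ≤ p.2}

/-- the vectors -/
abbrev V (n : ℕ) : Type := Fin n → ZMod 2

/-- the group of the matrices -/
abbrev G (n : ℕ) : Type := P n → ZMod 2

/-- the matrix `v vᵀ` -/
def K {n : ℕ} (v : V n) : G n := fun p => v p.1.1 * v p.1.2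

/-- the sign -/
def chi (x : ZMod 2) : ℤ := if x = 0 then 1 else -1

/-- the pairing -/
def dot {n : ℕ} (q g : G n) : ZMod 2 := ∑ p, q p * g p

/-- the character sum of the quadratic form `q` -/
def S {n : ℕ} (q : G n) : ℤ := ∑ v : V n, chi (dot q (K v))

lemma chi_add (x y : ZMod 2) : chi (x + y) = chi x * chi y := by
  revert x y
  decide

lemma chi_zero : chi 0 = 1 := rfl

lemma chi_mul_self (x : ZMod 2) : chi x * chi x = 1 := by
  revert x
  decide

lemma chi_sum {ι : Type*} (s : Finset ι) (f : ι → ZMod 2) :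
    chi (∑ i ∈ s, f i) = ∏ i ∈ s, chi (f i) := by
  classical
  induction s using Finset.induction_on with
  | empty => simp [chi_zero]
  | insert a s ha ih => rw [sum_insert ha, prod_insert ha, chi_add, ih]

lemma dot_add {n : ℕ} (q g h : G n) : dot q (g + h) = dot q g + dot q h := by
  unfold dot
  rw [← sum_add_distrib]
  exact sum_congr rfl fun p _ => by rw [Pi.add_apply, mul_add]

lemma add_dot {n : ℕ} (q r g : G n) : dot (q + r) g = dot q g + dot r g := by
  unfold dot
  rw [← sum_add_distrib]
  exact sum_congr rfl fun p _ => by rw [Pi.add_apply, add_mul]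

lemma dot_zero {n : ℕ} (q : G n) : dot q 0 = 0 := by
  unfold dot
  simp

lemma dot_sum {n : ℕ} {ι : Type*} (s : Finset ι) (q : G n) (f : ι → G n) :
    dot q (∑ i ∈ s, f i) = ∑ i ∈ s, dot q (f i) := by
  classical
  induction s using Finset.induction_on with
  | empty => simp [dot_zero]
  | insert a s ha ih => rw [sum_insert ha, sum_insert ha, dot_add, ih]

/-- orthogonality -/
lemma sum_chi_hom {A : Type*} [AddCommGroup A] [Fintype A] (f : A → ZMod 2)
    (hf : ∀ a b, f (a + b) = f a + f b) (h : ∃ a, f a ≠ 0) : ∑ a, chi (f a) = 0 := by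
  obtain ⟨a, ha⟩ := h
  have ha1 : chi (f a) = -1 := by
    unfold chi
    rw [if_neg ha]
  have h1 : ∑ b, chi (f b) = ∑ b, chi (f (b + a)) :=
    (Fintype.sum_equiv (Equiv.addRight a) _ _ fun b => rfl).symm
  have h2 : ∑ b, chi (f (b + a)) = -∑ b, chi (f b) := by
    rw [← sum_neg_distrib]
    refine sum_congr rfl fun b _ => ?_
    rw [hf, chi_add, ha1]
    ring
  linarith

lemma card_G (n : ℕ) : 0 < Fintype.card (G n) := Fintype.card_pos

lemma sum_chi_dot {n : ℕ} (g : G n) :
    ∑ q : G n, chi (dot q g) = if g = 0 then (Fintype.card (G n) : ℤ) else 0 := by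
  split_ifs with h
  · subst h
    simp [dot_zero, chi_zero]
  · refine sum_chi_hom (fun q => dot q g) (fun a b => add_dot a b g) ?_
    obtain ⟨p, hp⟩ := Function.ne_iff.1 h
    refine ⟨Pi.single p 1, ?_⟩
    unfold dot
    rw [Finset.sum_eq_single p]
    · simpa using hp
    · intro b _ hb
      rw [Pi.single_eq_of_ne hb, zero_mul]
    · intro h1
      exact absurd (mem_univ p) h1

lemma card_V (n : ℕ) : Fintype.card (V n) = 2 ^ n := by
  simp [V]

/-- orthogonality for vectors -/
lemma sum_chi_vec {n : ℕ} (w : V n) (hw : w ≠ 0) :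
    ∑ a : V n, chi (∑ i, a i * w i) = 0 := by
  refine sum_chi_hom (fun a : V n => ∑ i, a i * w i) ?_ ?_
  · intro a b
    rw [← sum_add_distrib]
    exact sum_congr rfl fun i _ => by rw [Pi.add_apply, add_mul]
  · obtain ⟨i, hi⟩ := Function.ne_iff.1 hw
    refine ⟨Pi.single i 1, ?_⟩
    rw [Finset.sum_eq_single i]
    · simpa using hi
    · intro b _ hb
      rw [Pi.single_eq_of_ne hb, zero_mul]
    · intro h1
      exact absurd (mem_univ i) h1

/-- the tuples of vectors with `∑ v vᵀ = 0` -/
def Rel (n k : ℕ) : Finset (Fin k → V n) := univ.filter fun u => ∑ i, K (u i) = 0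

/-- moments -/
lemma moment (n k : ℕ) : ∑ q : G n, S q ^ k = Fintype.card (G n) * (Rel n k).card := by
  have h1 : ∀ q : G n, S q ^ k = ∑ u : Fin k → V n, chi (dot q (∑ i, K (u i))) := by
    intro q
    unfold S
    rw [Fintype.sum_pow]
    refine sum_congr rfl fun u _ => ?_
    rw [dot_sum, chi_sum]
  simp only [h1]
  rw [sum_comm]
  simp only [sum_chi_dot]
  rw [Rel, card_filter]
  push_cast
  rw [mul_sum]
  refine sum_congr rfl fun u _ => ?_
  split_ifs <;> simp

/-- the polar form -/
def bil {n : ℕ} (v w : V n) : G n := fun p => v p.1.1 * w p.1.2 + w p.1.1 * v p.1.2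

lemma K_add {n : ℕ} (v w : V n) : K (v + w) = K v + K w + bil v w := by
  funext p
  simp only [K, bil, Pi.add_apply]
  ring

lemma bil_add_left {n : ℕ} (v v' w : V n) : bil (v + v') w = bil v w + bil v' w := by
  funext p
  simp only [bil, Pi.add_apply]
  ring

lemma bil_comm {n : ℕ} (v w : V n) : bil v w = bil w v := by
  funext p
  simp only [bil]
  ring

lemma bil_add_right {n : ℕ} (v w w' : V n) : bil v (w + w') = bil v w + bil v w' := by
  rw [bil_comm, bil_add_left, bil_comm w, bil_comm w']

lemma bil_self {n : ℕ} (v : V n) : bil v v = 0 := by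
  funext p
  simp only [bil, Pi.zero_apply]
  exact CharTwo.add_self_eq_zero _

lemma K_zero {n : ℕ} : K (0 : V n) = 0 := by
  funext p
  simp [K]

lemma K_add_self {n : ℕ} (v : V n) : K v + K v = 0 := by
  funext p
  simp only [Pi.add_apply, Pi.zero_apply]
  exact CharTwo.add_self_eq_zero _

lemma zmod2_sq (x : ZMod 2) : x * x = x := by
  revert x
  decide

lemma K_inj {n : ℕ} {v w : V n} (h : K v = K w) : v = w := by
  funext i
  have h1 := congrFun h ⟨(i, i), le_refl _⟩
  simpa only [K, zmod2_sq] using h1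

/-- the radical of the polar form of `q` -/
def rad {n : ℕ} (q : G n) : AddSubgroup (V n) where
  carrier := {w | ∀ v, dot q (bil v w) = 0}
  zero_mem' := by
    intro v
    have h : bil v (0 : V n) = 0 := by
      funext p
      simp [bil]
    rw [h, dot_zero]
  add_mem' := by
    intro a b ha hb v
    rw [bil_add_right, dot_add, ha v, hb v, add_zero]
  neg_mem' := by
    intro a ha v
    have h : -a = a := by
      funext i
      rw [Pi.neg_apply]
      exact ZMod.neg_eq_self_mod_two _
    rw [h]
    exact ha v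

/-- the square of the character sum -/
lemma S_sq {n : ℕ} (q : G n) :
    S q = 0 ∨ ∃ j : ℕ, n ≤ 2 * j ∧ (S q = 2 ^ j ∨ S q = -2 ^ j) := by
  classical
  have h1 : S q * S q = ∑ w : V n, chi (dot q (K w)) * ∑ v : V n, chi (dot q (bil v w)) := by
    have h2 : S q * S q = ∑ v : V n, ∑ w : V n, chi (dot q (K v)) * chi (dot q (K w)) := by
      unfold S
      rw [sum_mul_sum]
    have h3 : ∀ v : V n, ∑ w : V n, chi (dot q (K v)) * chi (dot q (K w)) =
        ∑ w : V n, chi (dot q (K w)) * chi (dot q (bil v w)) := by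
      intro v
      have h4 : ∑ w : V n, chi (dot q (K v)) * chi (dot q (K w)) =
          ∑ w : V n, chi (dot q (K v)) * chi (dot q (K (v + w))) :=
        (Fintype.sum_equiv (Equiv.addLeft v) _ _ fun w => rfl).symm
      rw [h4]
      refine sum_congr rfl fun w _ => ?_
      rw [K_add, dot_add, dot_add, chi_add, chi_add]
      have h5 := chi_mul_self (dot q (K v))
      calc chi (dot q (K v)) * (chi (dot q (K v)) * chi (dot q (K w)) * chi (dot q (bil v w)))
          = (chi (dot q (K v)) * chi (dot q (K v))) * (chi (dot q (K w)) * chi (dot q (bil v w))) := by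
            ring
        _ = chi (dot q (K w)) * chi (dot q (bil v w)) := by rw [h5, one_mul]
    rw [h2, sum_congr rfl fun v _ => h3 v, sum_comm]
    refine sum_congr rfl fun w _ => ?_
    rw [mul_sum]
  have h2 : ∀ w : V n, ∑ v : V n, chi (dot q (bil v w)) =
      if w ∈ rad q then (2 : ℤ) ^ n else 0 := by
    intro w
    split_ifs with h
    · have h3 : ∀ v : V n, chi (dot q (bil v w)) = 1 := by
        intro v
        rw [h v, chi_zero]
      simp only [h3, sum_const, card_univ, card_V, nsmul_eq_mul, mul_one]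
      push_cast
      rfl
    · refine sum_chi_hom (fun v => dot q (bil v w)) ?_ ?_
      · intro a b
        rw [bil_add_left, dot_add]
      · by_contra hcon
        push Not at hcon
        exact h hcon
  have h3 : S q * S q = 2 ^ n * ∑ w : rad q, chi (dot q (K w.1)) := by
    rw [h1]
    have h4 : ∀ w : V n, chi (dot q (K w)) * ∑ v : V n, chi (dot q (bil v w)) =
        if w ∈ rad q then 2 ^ n * chi (dot q (K w)) else 0 := by
      intro w
      rw [h2 w]
      split_ifs <;> ring
    rw [sum_congr rfl fun w _ => h4 w, ← sum_filter, mul_sum]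
    refine (Finset.sum_subtype _ ?_ _)
    intro w
    simp
  by_cases h4 : ∃ w : rad q, dot q (K w.1) ≠ 0
  · left
    have h5 : ∑ w : rad q, chi (dot q (K w.1)) = 0 := by
      refine sum_chi_hom (fun w : rad q => dot q (K w.1)) ?_ h4
      intro a b
      show dot q (K (a.1 + b.1)) = _
      rw [K_add, dot_add, dot_add, b.2 a.1, add_zero]
    rw [h5, mul_zero] at h3
    exact mul_self_eq_zero.1 h3
  · right
    push Not at h4
    have h5 : ∑ w : rad q, chi (dot q (K w.1)) = (Fintype.card (rad q) : ℤ) := by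
      simp [h4, chi_zero]
    rw [h5] at h3
    obtain ⟨c, -, hc⟩ : ∃ c ≤ n, Fintype.card (rad q) = 2 ^ c := by
      rw [← Nat.dvd_prime_pow Nat.prime_two]
      have h6 := AddSubgroup.card_addSubgroup_dvd_card (rad q)
      rwa [Nat.card_eq_fintype_card, Nat.card_eq_fintype_card, card_V] at h6
    rw [hc] at h3
    have h6 : (S q).natAbs * (S q).natAbs = 2 ^ (n + c) := by
      have h7 := congrArg Int.natAbs h3
      rw [Int.natAbs_mul, Int.natAbs_mul, Int.natAbs_pow] at h7
      rw [h7, pow_add]
      norm_num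
    have h7 : (S q).natAbs ∣ 2 ^ (n + c) := ⟨_, h6.symm⟩
    obtain ⟨j, -, hj⟩ := (Nat.dvd_prime_pow Nat.prime_two).1 h7
    refine ⟨j, ?_, ?_⟩
    · rw [hj, ← pow_add] at h6
      have h8 := Nat.pow_right_injective (le_refl 2) h6
      omega
    · have h8 := Int.natAbs_eq (S q)
      rw [hj] at h8
      push_cast at h8
      exact h8

end Pool.Agent.Lib.MP_018e2a_an.INV
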