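import Mathlib
import Pool.Agent.Lib.MP_018e2a_an.INV.Char

/-!
# The number of the tuples with `∑ v vᵀ = 0`
-/

set_option autoImplicit false

namespace Pool.Agent.Lib.MP_018e2a_an.INV

open Finset

lemma rel_full {n : ℕ} {ι : Type*} (s : Finset ι) (u : ι → V n) (g : G n)
    (h : g + ∑ j ∈ s, K (u j) = 0) (p : P n) : g p + ∑ j ∈ s, u j p.1.1 * u j p.1.2 = 0 := by
  have h1 := congrFun h p
  rw [Pi.add_apply, Finset.sum_apply] at h1
  exact h1

/-- for non-zero vectors `d j`, some linear function is not zero on more than half of them -/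
lemma exists_half {n : ℕ} {ι : Type*} (J : Finset ι) (hJ : J.Nonempty) (d : ι → V n)
    (hd : ∀ j ∈ J, d j ≠ 0) :
    ∃ a : V n, J.card < 2 * (J.filter fun j => ∑ i, a i * d j i ≠ 0).card := by
  by_contra hcon
  push Not at hcon
  have hf : ∀ a : V n, ∑ j ∈ J, (1 - chi (∑ i, a i * d j i)) =
      2 * ((J.filter fun j => ∑ i, a i * d j i ≠ 0).card : ℤ) := by
    intro a
    rw [card_filter]
    push_cast
    rw [mul_sum]
    refine sum_congr rfl fun j _ => ?_
    unfold chi
    by_cases h : ∑ i, a i * d j i = 0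
    · rw [if_pos h, if_neg (not_not.2 h)]
      norm_num
    · rw [if_neg h, if_pos h]
      norm_num
  have h1 : ∑ a : V n, ∑ j ∈ J, (1 - chi (∑ i, a i * d j i)) = (J.card : ℤ) * 2 ^ n := by
    rw [sum_comm]
    have h2 : ∀ j ∈ J, ∑ a : V n, (1 - chi (∑ i, a i * d j i)) = 2 ^ n := by
      intro j hj
      rw [sum_sub_distrib, sum_chi_vec _ (hd j hj)]
      simp
    rw [sum_congr rfl h2, sum_const, nsmul_eq_mul]
  have h2 : ∑ a : V n, ∑ j ∈ J, (1 - chi (∑ i, a i * d j i)) < ∑ _a : V n, (J.card : ℤ) := by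
    refine sum_lt_sum ?_ ⟨0, mem_univ _, ?_⟩
    · intro a _
      rw [hf a]
      exact_mod_cast hcon a
    · have h3 : ∀ j ∈ J, (1 - chi (∑ i, (0 : V n) i * d j i)) = 0 := by
        intro j _
        simp [chi_zero]
      rw [sum_congr rfl h3, sum_const_zero]
      exact_mod_cast hJ.card_pos
  rw [h1, sum_const, card_univ, card_V, nsmul_eq_mul] at h2
  push_cast at h2
  rw [mul_comm] at h2
  exact lt_irrefl _ h2

private lemma two_eq_zero : (2 : ZMod 2) = 0 := by decide

/-- an odd number `m ≤ 5` of vectors, which together with `u0` satisfy the relation, contains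
`u0` -/
lemma exists_eq {n m : ℕ} (hm : m % 2 = 1) (hm5 : m ≤ 5) (u0 : V n) (u : Fin m → V n)
    (h : K u0 + ∑ j, K (u j) = 0) : ∃ j, u j = u0 := by
  by_contra hcon
  push Not at hcon
  have hmz : (m : ZMod 2) = 1 := by
    have h1 : (m : ZMod 2) = ((m % 2 : ℕ) : ZMod 2) := by simp
    rw [h1, hm]
    rfl
  set d : Fin m → V n := fun j => u j + u0 with hddef
  have hd : ∀ j, d j ≠ 0 := by
    intro j hj
    apply hcon j
    funext i
    have h1 := congrFun hj i
    simp only [hddef, Pi.add_apply, Pi.zero_apply] at h1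
    have h2 : u j i = -(u0 i) := eq_neg_of_add_eq_zero_left h1
    rw [h2]
    exact ZMod.neg_eq_self_mod_two _
  -- the relations
  have hA : ∀ i, ∑ j, u j i = u0 i := by
    intro i
    have h1 := rel_full univ u (K u0) h ⟨(i, i), le_refl _⟩
    simp only [K, zmod2_sq] at h1
    have h2 : ∑ j, u j i = -(u0 i) := eq_neg_of_add_eq_zero_right h1
    rw [h2]
    exact ZMod.neg_eq_self_mod_two _
  have hB : ∀ i i', ∑ j, u j i * u j i' = u0 i * u0 i' := by
    have h1 : ∀ i i' : Fin n, i ≤ i' → ∑ j, u j i * u j i' = u0 i * u0 i' := by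
      intro i i' hi
      have h2 := rel_full univ u (K u0) h ⟨(i, i'), hi⟩
      simp only [K] at h2
      have h3 : ∑ j, u j i * u j i' = -(u0 i * u0 i') := eq_neg_of_add_eq_zero_right h2
      rw [h3]
      exact ZMod.neg_eq_self_mod_two _
    intro i i'
    rcases le_total i i' with hi | hi
    · exact h1 i i' hi
    · rw [mul_comm (u0 i), ← h1 i' i hi]
      exact sum_congr rfl fun j _ => mul_comm _ _
  have hd1 : ∀ i, ∑ j, d j i = 0 := by
    intro i
    simp only [hddef, Pi.add_apply]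
    rw [sum_add_distrib, hA, sum_const, card_univ, Fintype.card_fin, nsmul_eq_mul, hmz, one_mul]
    exact CharTwo.add_self_eq_zero _
  have hd2 : ∀ i i', ∑ j, d j i * d j i' = 0 := by
    intro i i'
    have h1 : ∀ j, d j i * d j i' = u j i * u j i' + u j i * u0 i' + u0 i * u j i' +
        u0 i * u0 i' := by
      intro j
      simp only [hddef, Pi.add_apply]
      ring
    rw [sum_congr rfl fun j _ => h1 j, sum_add_distrib, sum_add_distrib, sum_add_distrib, hB,
      ← sum_mul, hA, ← mul_sum, hA, sum_const, card_univ, Fintype.card_fin, nsmul_eq_mul, hmz]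
    linear_combination (2 * (u0 i * u0 i')) * two_eq_zero
  -- the two linear functions
  have hmpos : 0 < m := by omega
  have hne : (univ : Finset (Fin m)).Nonempty := ⟨⟨0, hmpos⟩, mem_univ _⟩
  obtain ⟨a, ha⟩ := exists_half univ hne d (fun j _ => hd j)
  set J' : Finset (Fin m) := univ.filter fun j => ∑ i, a i * d j i = 0 with hJ'
  have hcard : J'.card + (univ.filter fun j : Fin m => ∑ i, a i * d j i ≠ 0).card = m := by
    have h1 := Finset.card_filter_add_card_filter_not (s := (univ : Finset (Fin m)))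
      (fun j => ∑ i, a i * d j i = 0)
    rw [card_univ, Fintype.card_fin] at h1
    exact h1
  rw [card_univ, Fintype.card_fin] at ha
  have hJ2 : J'.card ≤ 2 := by omega
  obtain ⟨b, hb⟩ : ∃ b : V n, ∀ j ∈ J', ∑ i, b i * d j i ≠ 0 := by
    rcases J'.eq_empty_or_nonempty with h0 | h0
    · refine ⟨0, fun j hj => ?_⟩
      rw [h0] at hj
      exact absurd hj (notMem_empty j)
    · obtain ⟨b, hb⟩ := exists_half J' h0 d (fun j _ => hd j)
      refine ⟨b, fun j hj => ?_⟩
      have h1 : (J'.filter fun j => ∑ i, b i * d j i ≠ 0) = J' := by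
        refine Finset.eq_of_subset_of_card_le (filter_subset _ _) ?_
        have h2 := h0.card_pos
        omega
      rw [← h1] at hj
      exact (mem_filter.1 hj).2
  have hone : ∀ x : ZMod 2, x ≠ 0 → 1 + x = 0 := by decide
  have hz : ∀ j : Fin m, (1 + ∑ i, a i * d j i) * (1 + ∑ i, b i * d j i) = 0 := by
    intro j
    by_cases hj : ∑ i, a i * d j i = 0
    · rw [hone _ (hb j (mem_filter.2 ⟨mem_univ j, hj⟩)), mul_zero]
    · rw [hone _ hj, zero_mul]
  have hs1 : ∀ c : V n, ∑ j, ∑ i, c i * d j i = 0 := by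
    intro c
    rw [sum_comm]
    refine sum_eq_zero fun i _ => ?_
    rw [← mul_sum, hd1, mul_zero]
  have hs2 : ∑ j, (∑ i, a i * d j i) * (∑ i, b i * d j i) = 0 := by
    have h1 : ∀ j, (∑ i, a i * d j i) * (∑ i, b i * d j i) =
        ∑ i, ∑ i', (a i * b i') * (d j i * d j i') := by
      intro j
      rw [sum_mul_sum]
      refine sum_congr rfl fun i _ => sum_congr rfl fun i' _ => ?_
      ring
    rw [sum_congr rfl fun j _ => h1 j, sum_comm]
    refine sum_eq_zero fun i _ => ?_
    rw [sum_comm]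
    refine sum_eq_zero fun i' _ => ?_
    rw [← mul_sum, hd2, mul_zero]
  have hfin : ∑ j : Fin m, (1 + ∑ i, a i * d j i) * (1 + ∑ i, b i * d j i) = 1 := by
    have h1 : ∀ j : Fin m, (1 + ∑ i, a i * d j i) * (1 + ∑ i, b i * d j i) =
        1 + ∑ i, a i * d j i + ∑ i, b i * d j i +
          (∑ i, a i * d j i) * (∑ i, b i * d j i) := by
      intro j
      ring
    rw [sum_congr rfl fun j _ => h1 j, sum_add_distrib, sum_add_distrib, sum_add_distrib, hs1, hs1,
      hs2, sum_const, card_univ, Fintype.card_fin, nsmul_eq_mul, hmz]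
    ring
  rw [sum_congr rfl fun j _ => hz j, sum_const_zero] at hfin
  exact zero_ne_one hfin

lemma mem_Rel {n k : ℕ} (u : Fin k → V n) : u ∈ Rel n k ↔ ∑ i, K (u i) = 0 := by
  unfold Rel
  simp

lemma rel_succ (n k : ℕ) (hk : (k + 1) % 2 = 1) (hk5 : k + 1 ≤ 5) :
    (Rel n (k + 2)).card ≤ (k + 1) * 2 ^ n * (Rel n k).card := by
  classical
  let f : Fin (k + 1) × V n × (Fin k → V n) → (Fin (k + 2) → V n) := fun x =>
    Fin.cons x.2.1 (x.1.insertNth x.2.1 x.2.2)
  have hsub : Rel n (k + 2) ⊆ ((univ : Finset (Fin (k + 1))) ×ˢ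
      ((univ : Finset (V n)) ×ˢ Rel n k)).image f := by
    intro u hu
    rw [mem_Rel, Fin.sum_univ_succ] at hu
    obtain ⟨j, hj⟩ := exists_eq hk hk5 (u 0) (fun i => u i.succ) hu
    rw [mem_image]
    refine ⟨(j, u 0, j.removeNth (fun i => u i.succ)), ?_, ?_⟩
    · rw [mem_product, mem_product]
      refine ⟨mem_univ _, mem_univ _, ?_⟩
      rw [mem_Rel]
      rw [Fin.sum_univ_succAbove _ j, hj, ← add_assoc, K_add_self, zero_add] at hu
      exact hu
    · show Fin.cons (u 0) (j.insertNth (u 0) (j.removeNth fun i => u i.succ)) = u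
      have h1 : j.insertNth (u 0) (j.removeNth fun i => u i.succ) = fun i => u i.succ := by
        have h2 := Fin.insertNth_self_removeNth j (fun i => u i.succ)
        rw [hj] at h2
        exact h2
      rw [h1]
      exact Fin.cons_self_tail u
  refine (card_le_card hsub).trans (card_image_le.trans ?_)
  rw [card_product, card_product, card_univ, card_univ, Fintype.card_fin, card_V, mul_assoc]

lemma rel_zero (n : ℕ) : (Rel n 0).card ≤ 1 := by
  refine (card_le_univ _).trans ?_
  simp

lemma rel_one (n : ℕ) : (Rel n 1).card ≤ 1 := by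
  rw [card_le_one]
  intro u hu v hv
  rw [mem_Rel, Fin.sum_univ_one] at hu hv
  funext i
  rw [Subsingleton.elim i 0]
  exact K_inj (hu.trans hv.symm)

lemma rel_two (n : ℕ) : (Rel n 2).card ≤ 2 ^ n := by
  have h1 := rel_succ n 0 (by norm_num) (by norm_num)
  have h2 := rel_zero n
  calc (Rel n 2).card ≤ (0 + 1) * 2 ^ n * (Rel n 0).card := h1
    _ ≤ (0 + 1) * 2 ^ n * 1 := Nat.mul_le_mul_left _ h2
    _ = 2 ^ n := by ring

lemma rel_four (n : ℕ) : (Rel n 4).card ≤ 3 * (2 ^ n) ^ 2 := by
  have h1 := rel_succ n 2 (by norm_num) (by norm_num)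
  have h2 := rel_two n
  calc (Rel n 4).card ≤ (2 + 1) * 2 ^ n * (Rel n 2).card := h1
    _ ≤ (2 + 1) * 2 ^ n * 2 ^ n := Nat.mul_le_mul_left _ h2
    _ = 3 * (2 ^ n) ^ 2 := by ring

lemma rel_six (n : ℕ) : (Rel n 6).card ≤ 15 * (2 ^ n) ^ 3 := by
  have h1 := rel_succ n 4 (by norm_num) (by norm_num)
  have h2 := rel_four n
  calc (Rel n 6).card ≤ (4 + 1) * 2 ^ n * (Rel n 4).card := h1
    _ ≤ (4 + 1) * 2 ^ n * (3 * (2 ^ n) ^ 2) := Nat.mul_le_mul_left _ h2
    _ = 15 * (2 ^ n) ^ 3 := by ring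

lemma rel_five (n : ℕ) : (Rel n 5).card ≤ 15 * (2 ^ n) ^ 2 := by
  classical
  let f : Fin 5 × (Fin 4 → V n) → (Fin 5 → V n) := fun x => x.1.insertNth 0 x.2
  have hsub : Rel n 5 ⊆ ((univ : Finset (Fin 5)) ×ˢ Rel n 4).image f := by
    intro u hu
    rw [mem_Rel] at hu
    obtain ⟨j, hj⟩ := exists_eq (m := 5) (by norm_num) (le_refl _) 0 u
      (by rw [K_zero, zero_add]; exact hu)
    rw [mem_image]
    refine ⟨(j, j.removeNth u), ?_, ?_⟩
    · rw [mem_product]
      refine ⟨mem_univ _, ?_⟩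
      rw [mem_Rel]
      rw [Fin.sum_univ_succAbove _ j, hj, K_zero, zero_add] at hu
      exact hu
    · show j.insertNth 0 (j.removeNth u) = u
      have h2 := Fin.insertNth_self_removeNth j u
      rw [hj] at h2
      exact h2
  refine (card_le_card hsub).trans (card_image_le.trans ?_)
  rw [card_product, card_univ, Fintype.card_fin]
  have h2 := rel_four n
  calc 5 * (Rel n 4).card ≤ 5 * (3 * (2 ^ n) ^ 2) := Nat.mul_le_mul_left _ h2
    _ = 15 * (2 ^ n) ^ 2 := by ring

lemma rel_four_lower (n : ℕ) : 3 * (2 ^ n * 2 ^ n - 2 ^ n) ≤ (Rel n 4).card := by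
  classical
  set D : Finset (V n × V n) := (univ : Finset (V n)).offDiag with hD
  have hDc : D.card = 2 ^ n * 2 ^ n - 2 ^ n := by
    rw [hD, offDiag_card, card_univ, card_V]
  let m1 : V n × V n → (Fin 4 → V n) := fun p => ![p.1, p.1, p.2, p.2]
  let m2 : V n × V n → (Fin 4 → V n) := fun p => ![p.1, p.2, p.1, p.2]
  let m3 : V n × V n → (Fin 4 → V n) := fun p => ![p.1, p.2, p.2, p.1]
  have i1 : Function.Injective m1 := by
    intro p q h
    have h0 := congrFun h 0
    have h2 := congrFun h 2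
    exact Prod.ext h0 h2
  have i2 : Function.Injective m2 := by
    intro p q h
    have h0 := congrFun h 0
    have h1 := congrFun h 1
    exact Prod.ext h0 h1
  have i3 : Function.Injective m3 := by
    intro p q h
    have h0 := congrFun h 0
    have h1 := congrFun h 1
    exact Prod.ext h0 h1
  have hne : ∀ p ∈ D, p.1 ≠ p.2 := by
    intro p hp
    exact (mem_offDiag.1 hp).2.2
  have d12 : Disjoint (D.image m1) (D.image m2) := by
    rw [disjoint_left]
    intro u h1 h2
    obtain ⟨p, hp, rfl⟩ := mem_image.1 h1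
    obtain ⟨q, hq, h3⟩ := mem_image.1 h2
    have e0 : q.1 = p.1 := congrFun h3 0
    have e1 : q.2 = p.1 := congrFun h3 1
    exact hne q hq (e0.trans e1.symm)
  have d123 : Disjoint (D.image m1 ∪ D.image m2) (D.image m3) := by
    rw [disjoint_left]
    intro u h1 h2
    obtain ⟨q, hq, rfl⟩ := mem_image.1 h2
    rcases mem_union.1 h1 with h1 | h1
    · obtain ⟨p, hp, h3⟩ := mem_image.1 h1
      have e0 : p.1 = q.1 := congrFun h3 0
      have e1 : p.1 = q.2 := congrFun h3 1
      exact hne q hq (e0.symm.trans e1)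
    · obtain ⟨p, hp, h3⟩ := mem_image.1 h1
      have e0 : p.1 = q.1 := congrFun h3 0
      have e1 : p.1 = q.2 := congrFun h3 2
      exact hne q hq (e0.symm.trans e1)
  have hsub : D.image m1 ∪ D.image m2 ∪ D.image m3 ⊆ Rel n 4 := by
    intro u hu
    rw [mem_Rel, Fin.sum_univ_four]
    rcases mem_union.1 hu with hu | hu
    · rcases mem_union.1 hu with hu | hu
      · obtain ⟨p, _, rfl⟩ := mem_image.1 hu
        show K p.1 + K p.1 + K p.2 + K p.2 = 0
        rw [add_assoc, K_add_self, K_add_self, add_zero]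
      · obtain ⟨p, _, rfl⟩ := mem_image.1 hu
        show K p.1 + K p.2 + K p.1 + K p.2 = 0
        have h1 : K p.1 + K p.2 + K p.1 + K p.2 = (K p.1 + K p.1) + (K p.2 + K p.2) := by ring
        rw [h1, K_add_self, K_add_self, add_zero]
    · obtain ⟨p, _, rfl⟩ := mem_image.1 hu
      show K p.1 + K p.2 + K p.2 + K p.1 = 0
      have h1 : K p.1 + K p.2 + K p.2 + K p.1 = (K p.1 + K p.1) + (K p.2 + K p.2) := by ring
      rw [h1, K_add_self, K_add_self, add_zero]
  have h1 := card_le_card hsub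
  rw [card_union_of_disjoint d123, card_union_of_disjoint d12, card_image_of_injective _ i1,
    card_image_of_injective _ i2, card_image_of_injective _ i3, hDc] at h1
  omega

end Pool.Agent.Lib.MP_018e2a_an.INV
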