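import Pool.Agent.Lib.MP_018e2a_an.INV.Inertia
import Pool.Agent.Lib.MP_018e2a_an.TH.Meas

/-!
# Returns for commuting involutions
-/

set_option autoImplicit false

namespace Pool.Agent.Lib.MP_018e2a_an.INV

open Finset MeasureTheory

lemma ret_sum {X : Type*} [MeasurableSpace X] (μ : Measure X) [IsProbabilityMeasure μ] (m : ℕ)
    (W : G (2 * m + 1) → X → X) (hW : ∀ g, MeasurePreserving (W g) μ μ)
    (hadd : ∀ g h, W (g + h) = W g ∘ W h) (A : Set X) (hA : MeasurableSet A) :
    μ.real A - (225 / 1024 + 1 / 2 ^ (m + 1)) ≤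
      ∑ v ∈ (univ : Finset (V (2 * m + 1))).erase 0, μ.real (A ∩ W (K v) ⁻¹' A) := by
  classical
  set c : ℝ := ((Fintype.card (G (2 * m + 1)) : ℕ) : ℝ) with hc
  have hc0 : 0 < c := by
    rw [hc]
    exact_mod_cast card_G _
  set p : ℝ := (((univ : Finset (G (2 * m + 1))).filter fun q => 0 < S q).card : ℝ) with hp
  have hp1 : p ≤ c * (225 / 1024 + 1 / 2 ^ (m + 1)) := card_pos_le m
  have hm : ∀ v : V (2 * m + 1), MeasurableSet (A ∩ W (K v) ⁻¹' A) := fun v =>
    hA.inter ((hW _).measurable hA)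
  have hpt : ∀ x, ∑ g : G (2 * m + 1), (W g ⁻¹' A).indicator (1 : X → ℝ) x ≤
      p + ∑ v ∈ (univ : Finset (V (2 * m + 1))).erase 0, ∑ g : G (2 * m + 1),
        (W g ⁻¹' (A ∩ W (K v) ⁻¹' A)).indicator (1 : X → ℝ) x := by
    intro x
    set B : Finset (G (2 * m + 1)) := univ.filter fun g => W g x ∈ A with hB
    have h1 := card_le_edges m B
    have h2 : (B.card : ℝ) ≤ p + ∑ v ∈ (univ : Finset (V (2 * m + 1))).erase 0,
        ((B.filter fun y => y + K v ∈ B).card : ℝ) := by
      rw [hp]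
      exact_mod_cast h1
    have h3 : ∑ g : G (2 * m + 1), (W g ⁻¹' A).indicator (1 : X → ℝ) x = (B.card : ℝ) := by
      rw [hB, Finset.card_filter, Nat.cast_sum]
      refine sum_congr rfl fun g _ => ?_
      rw [Set.indicator_apply]
      simp only [Set.mem_preimage, Pi.one_apply]
      split_ifs <;> simp
    have h4 : ∀ v : V (2 * m + 1), ∑ g : G (2 * m + 1),
        (W g ⁻¹' (A ∩ W (K v) ⁻¹' A)).indicator (1 : X → ℝ) x =
        ((B.filter fun y => y + K v ∈ B).card : ℝ) := by
      intro v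
      rw [hB, Finset.filter_filter, Finset.card_filter, Nat.cast_sum]
      refine sum_congr rfl fun g _ => ?_
      rw [Set.indicator_apply]
      have h5 : x ∈ W g ⁻¹' (A ∩ W (K v) ⁻¹' A) ↔
          (W g x ∈ A ∧ g + K v ∈ univ.filter fun g => W g x ∈ A) := by
        rw [mem_filter, add_comm g (K v), hadd]
        simp
      by_cases h6 : x ∈ W g ⁻¹' (A ∩ W (K v) ⁻¹' A)
      · rw [if_pos h6, if_pos (h5.1 h6)]
        simp
      · rw [if_neg h6, if_neg (fun h7 => h6 (h5.2 h7))]
        simp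
    rw [h3]
    simp only [h4]
    exact h2
  have hint : ∀ (s : Set X), MeasurableSet s → Integrable (s.indicator (1 : X → ℝ)) μ := by
    intro s hs
    exact (integrable_const (1 : ℝ)).indicator hs
  have hmg : ∀ g, MeasurableSet (W g ⁻¹' A) := fun g => (hW g).measurable hA
  have hmgv : ∀ g v, MeasurableSet (W g ⁻¹' (A ∩ W (K v) ⁻¹' A)) := fun g v =>
    (hW g).measurable (hm v)
  have hI := integral_mono (μ := μ)
    (integrable_finsetSum _ fun g _ => hint _ (hmg g))
    ((integrable_const p).add (integrable_finsetSum _ fun v _ =>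
      integrable_finsetSum _ fun g _ => hint _ (hmgv g v))) hpt
  have hL : ∫ x, ∑ g : G (2 * m + 1), (W g ⁻¹' A).indicator (1 : X → ℝ) x ∂μ = c * μ.real A := by
    rw [integral_finsetSum _ fun g _ => hint _ (hmg g)]
    have h1 : ∀ g : G (2 * m + 1), ∫ x, (W g ⁻¹' A).indicator (1 : X → ℝ) x ∂μ = μ.real A := by
      intro g
      rw [integral_indicator_one (hmg g)]
      exact (hW g).measureReal_preimage hA.nullMeasurableSet
    simp only [h1, sum_const, card_univ, nsmul_eq_mul, hc]
  have hR : ∫ x, (p + ∑ v ∈ (univ : Finset (V (2 * m + 1))).erase 0, ∑ g : G (2 * m + 1),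
        (W g ⁻¹' (A ∩ W (K v) ⁻¹' A)).indicator (1 : X → ℝ) x) ∂μ =
      p + ∑ v ∈ (univ : Finset (V (2 * m + 1))).erase 0, c * μ.real (A ∩ W (K v) ⁻¹' A) := by
    rw [integral_add (integrable_const p) (integrable_finsetSum _ fun v _ =>
      integrable_finsetSum _ fun g _ => hint _ (hmgv g v)), integral_const,
      integral_finsetSum _ fun v _ => integrable_finsetSum _ fun g _ => hint _ (hmgv g v)]
    congr 1
    · simp
    · refine sum_congr rfl fun v _ => ?_
      rw [integral_finsetSum _ fun g _ => hint _ (hmgv g v)]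
      have h1 : ∀ g : G (2 * m + 1), ∫ x, (W g ⁻¹' (A ∩ W (K v) ⁻¹' A)).indicator
          (1 : X → ℝ) x ∂μ = μ.real (A ∩ W (K v) ⁻¹' A) := by
        intro g
        rw [integral_indicator_one (hmgv g v)]
        exact (hW g).measureReal_preimage (hm v).nullMeasurableSet
      simp only [h1, sum_const, card_univ, nsmul_eq_mul, hc]
  have hfin : c * μ.real A ≤
      p + ∑ v ∈ (univ : Finset (V (2 * m + 1))).erase 0, c * μ.real (A ∩ W (K v) ⁻¹' A) := by
    rw [← hL, ← hR]
    exact hI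
  rw [← mul_sum] at hfin
  have h9 : c * (μ.real A - (225 / 1024 + 1 / 2 ^ (m + 1))) ≤
      c * ∑ v ∈ (univ : Finset (V (2 * m + 1))).erase 0, μ.real (A ∩ W (K v) ⁻¹' A) := by
    rw [mul_sub]
    linarith
  exact le_of_mul_le_mul_left h9 hc0

end Pool.Agent.Lib.MP_018e2a_an.INV
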