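import Pool.Agent.Lib.MP_018e2a_an.INV.Alg
import Pool.Agent.Lib.MP_018e2a_an.INV.Meas

/-!
# Returns for commuting involutions: the theorem
-/

set_option autoImplicit false

namespace Pool.Agent.Lib.MP_018e2a_an.INV

open Finset MeasureTheory TH
open scoped IsMulCommutative

lemma ret_sum_T {X : Type*} [MeasurableSpace X] (μ : Measure X) [IsProbabilityMeasure μ]
    (T : ℕ → ℕ → X → X) (hT : ∀ i j, MeasurePreserving (T i j) μ μ)
    (hc : ∀ i j k l, T i j ∘ T k l = T k l ∘ T i j) (h2 : ∀ i j, T i j ∘ T i j = id)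
    (A : Set X) (hA : MeasurableSet A) (m : ℕ) (β : Fin (2 * m + 1) → Finset ℕ)
    (hβ : ∀ i j, i ≠ j → Disjoint (β i) (β j)) :
    μ.real A - (225 / 1024 + 1 / 2 ^ (m + 1)) ≤
      ∑ v ∈ (univ : Finset (V (2 * m + 1))).erase 0,
        μ.real (A ∩ TH.sq T ((supp v).biUnion β) ⁻¹' A) := by
  classical
  let S : Set (Function.End X) := Set.range fun q : ℕ × ℕ => (T q.1 q.2 : Function.End X)
  have hS : ∀ a ∈ S, ∀ b ∈ S, a * b = b * a := by
    rintro _ ⟨q, rfl⟩ _ ⟨q', rfl⟩
    exact hc _ _ _ _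
  have hcm : IsMulCommutative (Submonoid.closure S) :=
    Submonoid.isMulCommutative_closure (Function.End X) hS
  have hmp : ∀ c : Submonoid.closure S, MeasurePreserving (c.1 : X → X) μ μ := by
    rintro ⟨c, hc'⟩
    refine Submonoid.closure_induction (motive := fun (c : Function.End X) _ =>
      MeasurePreserving (c : X → X) μ μ) ?_ ?_ ?_ hc'
    · rintro _ ⟨q, rfl⟩
      exact hT _ _
    · exact MeasurePreserving.id μ
    · intro x y _ _ hx hy
      exact hx.comp hy
  let t : ℕ → ℕ → Submonoid.closure S := fun i j =>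
    ⟨(T i j : Function.End X), Submonoid.subset_closure ⟨(i, j), rfl⟩⟩
  have ht : ∀ i j, t i j * t i j = 1 := by
    intro i j
    apply Subtype.ext
    exact h2 i j
  let r : Fin (2 * m + 1) → Fin (2 * m + 1) → Submonoid.closure S := fun i j =>
    ∏ a ∈ β i, ∏ b ∈ β j, t a b
  have hr : ∀ i j, r i j * r i j = 1 := by
    intro i j
    simp only [r]
    rw [← prod_mul_distrib]
    refine prod_eq_one fun a _ => ?_
    rw [← prod_mul_distrib]
    exact prod_eq_one fun b _ => ht a b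
  have h := ret_sum μ m (fun g => ((Wm (Ug r) g).1 : X → X)) (fun g => hmp _) (by
    intro g h
    show ((Wm (Ug r) (g + h)).1 : X → X) = _
    rw [Wm_add _ (Ug_sq r hr)]
    rfl) A hA
  refine h.trans (le_of_eq (sum_congr rfl fun v _ => ?_))
  have h3 : ∀ (γ : Finset ℕ) (g : ℕ → Submonoid.closure S),
      ((∏ i ∈ γ, g i : Submonoid.closure S) : Function.End X) =
        (γ.toList.map fun i => ((g i : Submonoid.closure S) : Function.End X)).prod := by
    intro γ g
    rw [← Finset.prod_map_toList]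
    have h6 := map_list_prod (Submonoid.closure S).subtype (γ.toList.map g)
    rw [List.map_map] at h6
    exact h6
  have h5 : Wm (Ug r) (K v) =
      ∏ a ∈ (supp v).biUnion β, ∏ b ∈ (supp v).biUnion β, t a b := by
    rw [Wm_K, prod_biUnion (fun i _ j _ hij => hβ i j hij)]
    refine prod_congr rfl fun i _ => ?_
    simp only [r]
    rw [prod_comm]
    refine prod_congr rfl fun a _ => ?_
    rw [prod_biUnion (fun i _ j _ hij => hβ i j hij)]
  have h6 : ((Wm (Ug r) (K v)).1 : X → X) = TH.sq T ((supp v).biUnion β) := by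
    rw [h5, h3]
    unfold TH.sq
    have h4 : ∀ i, List.foldr (fun (j : ℕ) (g : X → X) => T i j ∘ g) (id : X → X)
        ((supp v).biUnion β).toList =
        ((∏ j ∈ (supp v).biUnion β, t i j : Submonoid.closure S) : Function.End X) := by
      intro i
      rw [h3]
      exact foldr_comp (fun j => ((t i j : Submonoid.closure S) : Function.End X)) _
    simp only [h4]
    exact (foldr_comp (fun i => ((∏ j ∈ (supp v).biUnion β, t i j : Submonoid.closure S) :
      Function.End X)) _).symm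
  rw [h6]

theorem ret_inv (δ : ℝ) (hδ : 225 / 1024 < δ) : ∃ (n : ℕ) (c : ℝ), 0 < c ∧
    ∀ (X : Type*) [MeasurableSpace X] (μ : Measure X) [IsProbabilityMeasure μ]
      (T : ℕ → ℕ → X → X) (_ : ∀ i j, MeasurePreserving (T i j) μ μ)
      (_ : ∀ i j k l, T i j ∘ T k l = T k l ∘ T i j) (_ : ∀ i j, T i j ∘ T i j = id)
      (A : Set X) (_ : MeasurableSet A) (_ : δ ≤ μ.real A)
      (β : Fin n → Finset ℕ) (_ : ∀ i j, i ≠ j → Disjoint (β i) (β j)),
      ∃ F : Finset (Fin n), F.Nonempty ∧ c ≤ μ.real (A ∩ TH.sq T (F.biUnion β) ⁻¹' A) := by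
  obtain ⟨m, hm⟩ := exists_pow_lt_of_lt_one (sub_pos.2 hδ) (show (1 : ℝ) / 2 < 1 by norm_num)
  have hm' : (1 : ℝ) / 2 ^ (m + 1) < δ - 225 / 1024 := by
    refine lt_of_le_of_lt ?_ hm
    rw [one_div_pow]
    exact one_div_le_one_div_of_le (by positivity) (pow_le_pow_right₀ (by norm_num) (by omega))
  set d : ℝ := δ - (225 / 1024 + 1 / 2 ^ (m + 1)) with hd
  have hd0 : 0 < d := by linarith
  refine ⟨2 * m + 1, d / 2 ^ (2 * m + 1), by positivity, ?_⟩
  intro X _ μ _ T hT hc h2 A hA hμ β hβ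
  have h := ret_sum_T μ T hT hc h2 A hA m β hβ
  by_contra hcon
  push Not at hcon
  have h3 : ∑ v ∈ (univ : Finset (V (2 * m + 1))).erase 0,
        μ.real (A ∩ TH.sq T ((supp v).biUnion β) ⁻¹' A) ≤
      ((univ : Finset (V (2 * m + 1))).erase 0).card • (d / 2 ^ (2 * m + 1)) :=
    sum_le_card_nsmul _ _ _ fun v hv => (hcon _ (supp_nonempty (ne_of_mem_erase hv))).le
  have h4 : ((((univ : Finset (V (2 * m + 1))).erase 0).card : ℕ) : ℝ) = 2 ^ (2 * m + 1) - 1 := by
    rw [card_erase_of_mem (mem_univ _), card_univ, card_V, Nat.cast_sub Nat.one_le_two_pow]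
    push_cast
    rfl
  rw [nsmul_eq_mul, h4] at h3
  have h5 : (0 : ℝ) < 2 ^ (2 * m + 1) := by positivity
  have h6 : ((2 : ℝ) ^ (2 * m + 1) - 1) * (d / 2 ^ (2 * m + 1)) < d := by
    have h7 : ((2 : ℝ) ^ (2 * m + 1) - 1) * (d / 2 ^ (2 * m + 1)) = d - d / 2 ^ (2 * m + 1) := by
      field_simp
    rw [h7]
    have : 0 < d / 2 ^ (2 * m + 1) := by positivity
    linarith
  linarith

end Pool.Agent.Lib.MP_018e2a_an.INV
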