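import Pool.Agent.Lib.MP_018e2a_an.INV.Count

/-!
# The number of positive character sums
-/

set_option autoImplicit false

namespace Pool.Agent.Lib.MP_018e2a_an.INV

open Finset

/-- the polynomial -/
noncomputable def maj (x : ℝ) : ℝ :=
  ((21 / 16) * x ^ 2 - (21 / 64) * x ^ 4 + (1 / 64) * x ^ 6 +
    ((868 / 720) * x - (31 / 144) * x ^ 3 + (7 / 720) * x ^ 5)) / 2

lemma maj_large (y : ℝ) (hy : 8 ≤ y) : 1 ≤ maj y ∧ 0 ≤ maj (-y) := by
  obtain ⟨w, rfl⟩ : ∃ w, y = 8 + w := ⟨y - 8, by ring⟩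
  have hw : 0 ≤ w := by linarith
  have h1 : 0 ≤ w ^ 2 := by positivity
  have h2 : 0 ≤ w ^ 3 := by positivity
  have h3 : 0 ≤ w ^ 4 := by positivity
  have h4 : 0 ≤ w ^ 5 := by positivity
  have h5 : 0 ≤ w ^ 6 := by positivity
  unfold maj
  constructor <;> ring_nf <;> nlinarith

lemma maj_pow (i : ℕ) : 1 ≤ maj (2 ^ i) ∧ 0 ≤ maj (-2 ^ i) := by
  rcases i with _ | _ | _ | i
  · unfold maj
    norm_num
  · unfold maj
    norm_num
  · unfold maj
    norm_num
  · refine maj_large _ ?_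
    have h : (1 : ℝ) ≤ 2 ^ i := one_le_pow₀ (by norm_num)
    rw [pow_succ, pow_succ, pow_succ]
    linarith

lemma maj_ge (m : ℕ) (q : G (2 * m + 1)) :
    (if 0 < S q then (1 : ℝ) else 0) ≤ maj ((S q : ℝ) / 2 ^ (m + 1)) := by
  rcases S_sq q with h | ⟨j, hj, h⟩
  · rw [h]
    simp [maj]
  · obtain ⟨i, rfl⟩ : ∃ i, j = m + 1 + i := ⟨j - (m + 1), by omega⟩
    have h0 : (2 : ℝ) ^ (m + 1) ≠ 0 := by positivity
    rcases h with h | h
    · rw [h, if_pos (by positivity)]
      push_cast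
      rw [pow_add, mul_div_cancel_left₀ _ h0]
      exact (maj_pow i).1
    · rw [h, if_neg (by
        have : (0 : ℤ) < 2 ^ (m + 1 + i) := by positivity
        omega)]
      push_cast
      rw [pow_add, ← mul_neg, mul_div_cancel_left₀ _ h0]
      exact (maj_pow i).2

/-- moments over the reals -/
lemma moment_real (m k : ℕ) :
    ∑ q : G (2 * m + 1), ((S q : ℝ) / 2 ^ (m + 1)) ^ k =
      Fintype.card (G (2 * m + 1)) * ((Rel (2 * m + 1) k).card / (2 ^ (m + 1)) ^ k) := by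
  have h := moment (2 * m + 1) k
  have h1 : ∑ q : G (2 * m + 1), (S q : ℝ) ^ k =
      Fintype.card (G (2 * m + 1)) * (Rel (2 * m + 1) k).card := by exact_mod_cast h
  simp only [div_pow]
  rw [← Finset.sum_div, h1, mul_div_assoc]

/-- the number of positive sums -/
theorem card_pos_le (m : ℕ) :
    (((univ : Finset (G (2 * m + 1))).filter fun q => 0 < S q).card : ℝ) ≤
      Fintype.card (G (2 * m + 1)) * (225 / 1024 + 1 / 2 ^ (m + 1)) := by
  set g : ℝ := ((Fintype.card (G (2 * m + 1)) : ℕ) : ℝ) with hg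
  have hg0 : 0 < g := by
    rw [hg]
    exact_mod_cast card_G _
  set s : ℝ := 2 ^ (m + 1) with hs
  have hs2 : 2 ≤ s := by
    rw [hs, pow_succ]
    have : (1 : ℝ) ≤ 2 ^ m := one_le_pow₀ (by norm_num)
    linarith
  have hs0 : 0 < s := by linarith
  set N : ℝ := 2 ^ (2 * m + 1) with hN
  have hNs : 2 * N = s ^ 2 := by
    rw [hN, hs]
    ring
  set e : ℝ := 1 / s with he
  have he0 : 0 < e := by positivity
  have hes : e * s = 1 := by
    rw [he]
    field_simp
  have he2 : e ^ 2 ≤ e / 2 := by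
    have : e ≤ 1 / 2 := by
      rw [he]
      gcongr
    nlinarith
  have h1 : (((univ : Finset (G (2 * m + 1))).filter fun q => 0 < S q).card : ℝ) ≤
      ∑ q : G (2 * m + 1), maj ((S q : ℝ) / s) := by
    rw [Finset.card_filter, Nat.cast_sum]
    refine Finset.sum_le_sum fun q _ => ?_
    refine le_trans (le_of_eq ?_) (maj_ge m q)
    split_ifs <;> simp
  refine h1.trans ?_
  have h2 : ∑ q : G (2 * m + 1), maj ((S q : ℝ) / s) =
      g * (((21 / 16) * ((Rel (2 * m + 1) 2).card / s ^ 2) -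
        (21 / 64) * ((Rel (2 * m + 1) 4).card / s ^ 4) +
        (1 / 64) * ((Rel (2 * m + 1) 6).card / s ^ 6) +
        ((868 / 720) * ((Rel (2 * m + 1) 1).card / s ^ 1) -
        (31 / 144) * ((Rel (2 * m + 1) 3).card / s ^ 3) +
        (7 / 720) * ((Rel (2 * m + 1) 5).card / s ^ 5))) / 2) := by
    unfold maj
    rw [← Finset.sum_div, sum_add_distrib, sum_add_distrib, sum_add_distrib, sum_sub_distrib,
      sum_sub_distrib, ← mul_sum, ← mul_sum, ← mul_sum, ← mul_sum, ← mul_sum, ← mul_sum]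
    have h3 : ∑ q : G (2 * m + 1), ((S q : ℝ) / s) = ∑ q : G (2 * m + 1), ((S q : ℝ) / s) ^ 1 := by
      simp
    rw [h3]
    simp only [hs, moment_real]
    ring
  rw [h2]
  refine mul_le_mul_of_nonneg_left ?_ hg0.le
  have hp : ∀ k : ℕ, 1 / s ^ k = e ^ k := by
    intro k
    rw [he, one_div_pow]
  have r1 : ((Rel (2 * m + 1) 1).card : ℝ) / s ^ 1 ≤ e := by
    have h := rel_one (2 * m + 1)
    have h' : ((Rel (2 * m + 1) 1).card : ℝ) ≤ 1 := by exact_mod_cast h
    rw [pow_one, he]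
    gcongr
  have r2 : ((Rel (2 * m + 1) 2).card : ℝ) / s ^ 2 ≤ 1 / 2 := by
    have h := rel_two (2 * m + 1)
    have h' : ((Rel (2 * m + 1) 2).card : ℝ) ≤ N := by
      rw [hN]
      exact_mod_cast h
    rw [div_le_iff₀ (by positivity)]
    linarith
  have r3 : 0 ≤ ((Rel (2 * m + 1) 3).card : ℝ) / s ^ 3 := by positivity
  have r4 : 3 / 4 - 3 / 2 * e ^ 2 ≤ ((Rel (2 * m + 1) 4).card : ℝ) / s ^ 4 := by
    have h := rel_four_lower (2 * m + 1)
    have h' : 3 * (N * N - N) ≤ ((Rel (2 * m + 1) 4).card : ℝ) := by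
      have h4 : ((3 * (2 ^ (2 * m + 1) * 2 ^ (2 * m + 1) - 2 ^ (2 * m + 1)) : ℕ) : ℝ) =
          3 * (N * N - N) := by
        rw [hN]
        have h5 : 2 ^ (2 * m + 1) ≤ 2 ^ (2 * m + 1) * 2 ^ (2 * m + 1) :=
          Nat.le_mul_of_pos_left _ (by positivity)
        push_cast [Nat.cast_sub h5]
        ring
      rw [← h4]
      exact_mod_cast h
    rw [le_div_iff₀ (by positivity)]
    refine le_trans (le_of_eq ?_) h'
    have h6 : e ^ 2 * s ^ 4 = s ^ 2 := by
      calc e ^ 2 * s ^ 4 = (e * s) ^ 2 * s ^ 2 := by ring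
        _ = s ^ 2 := by rw [hes]; ring
    have h7 : N = s ^ 2 / 2 := by linarith
    rw [h7]
    linear_combination (-3 / 2) * h6
  have r5 : ((Rel (2 * m + 1) 5).card : ℝ) / s ^ 5 ≤ 15 / 4 * e := by
    have h := rel_five (2 * m + 1)
    have h' : ((Rel (2 * m + 1) 5).card : ℝ) ≤ 15 * N ^ 2 := by
      rw [hN]
      exact_mod_cast h
    rw [div_le_iff₀ (by positivity)]
    refine h'.trans (le_of_eq ?_)
    have h6 : e * s ^ 5 = s ^ 4 := by
      calc e * s ^ 5 = (e * s) * s ^ 4 := by ring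
        _ = s ^ 4 := by rw [hes]; ring
    have h7 : N = s ^ 2 / 2 := by linarith
    rw [h7]
    linear_combination (-15 / 4) * h6
  have r6 : ((Rel (2 * m + 1) 6).card : ℝ) / s ^ 6 ≤ 15 / 8 := by
    have h := rel_six (2 * m + 1)
    have h' : ((Rel (2 * m + 1) 6).card : ℝ) ≤ 15 * N ^ 3 := by
      rw [hN]
      exact_mod_cast h
    rw [div_le_iff₀ (by positivity)]
    refine h'.trans (le_of_eq ?_)
    have h7 : N = s ^ 2 / 2 := by linarith
    rw [h7]
    ring
  linarith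

end Pool.Agent.Lib.MP_018e2a_an.INV
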