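import Pool.Agent.Lib.MP_018e2a_an.INV.Ineq

/-!
# The inertia bound
-/

set_option autoImplicit false

namespace Pool.Agent.Lib.MP_018e2a_an.INV

open Finset

/-- the Fourier transform -/
noncomputable def four {n : ℕ} (f : G n → ℝ) (q : G n) : ℝ := ∑ x, f x * (chi (dot q x) : ℝ)

lemma add_self_G {n : ℕ} (x : G n) : x + x = 0 := by
  funext p
  exact CharTwo.add_self_eq_zero _

lemma sum_chi_dot_real {n : ℕ} (g : G n) :
    ∑ q : G n, (chi (dot q g) : ℝ) = if g = 0 then (Fintype.card (G n) : ℝ) else 0 := by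
  have h := sum_chi_dot g
  have h1 : ((∑ q : G n, chi (dot q g) : ℤ) : ℝ) =
      ((if g = 0 then (Fintype.card (G n) : ℤ) else 0 : ℤ) : ℝ) := by rw [h]
  rw [Int.cast_sum] at h1
  rw [h1]
  split_ifs <;> simp

lemma four_sq {n : ℕ} (f : G n → ℝ) (w : V n) :
    ∑ q : G n, four f q ^ 2 * (chi (dot q (K w)) : ℝ) =
      Fintype.card (G n) * ∑ x, f x * f (x + K w) := by
  have h1 : ∀ q : G n, four f q ^ 2 * (chi (dot q (K w)) : ℝ) =
      ∑ x, ∑ y, f x * f y * (chi (dot q (x + y + K w)) : ℝ) := by
    intro q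
    unfold four
    rw [sq, sum_mul_sum, sum_mul]
    refine sum_congr rfl fun x _ => ?_
    rw [sum_mul]
    refine sum_congr rfl fun y _ => ?_
    rw [dot_add, dot_add, chi_add, chi_add]
    push_cast
    ring
  rw [sum_congr rfl fun q _ => h1 q, sum_comm, mul_sum]
  refine sum_congr rfl fun x _ => ?_
  rw [sum_comm]
  have h2 : ∀ y, ∑ q : G n, f x * f y * (chi (dot q (x + y + K w)) : ℝ) =
      if y = x + K w then (Fintype.card (G n) : ℝ) * (f x * f y) else 0 := by
    intro y
    rw [← mul_sum, sum_chi_dot_real]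
    have h3 : x + y + K w = 0 ↔ y = x + K w := by
      constructor
      · intro h
        calc y = y + (x + y + K w) + 0 := by rw [h]; simp
          _ = (y + y) + (x + K w) := by abel
          _ = x + K w := by rw [add_self_G, zero_add]
      · rintro rfl
        calc x + (x + K w) + K w = (x + x) + (K w + K w) := by abel
          _ = 0 := by rw [add_self_G, add_self_G, add_zero]
    by_cases h4 : x + y + K w = 0
    · rw [if_pos h4, if_pos (h3.1 h4)]
      ring
    · rw [if_neg h4, if_neg (fun h5 => h4 (h3.2 h5)), mul_zero]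
  rw [sum_congr rfl fun y _ => h2 y, sum_ite_eq' univ (x + K w)]
  simp

/-- the inertia bound for independent sets -/
theorem indep_card_le (m : ℕ) (B : Finset (G (2 * m + 1)))
    (hB : ∀ x ∈ B, ∀ v : V (2 * m + 1), v ≠ 0 → x + K v ∉ B) :
    B.card ≤ ((univ : Finset (G (2 * m + 1))).filter fun q => 0 < S q).card := by
  classical
  by_contra hcon
  push Not at hcon
  let Q : Finset (G (2 * m + 1)) := (univ : Finset (G (2 * m + 1))).filter fun q => 0 < S q
  let ext : (B → ℝ) → G (2 * m + 1) → ℝ := fun f x => if h : x ∈ B then f ⟨x, h⟩ else 0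
  let L : (B → ℝ) →ₗ[ℝ] (Q → ℝ) :=
    { toFun := fun f q => four (ext f) q.1
      map_add' := by
        intro f f'
        funext q
        show four (ext (f + f')) q.1 = four (ext f) q.1 + four (ext f') q.1
        unfold four
        rw [← sum_add_distrib]
        refine sum_congr rfl fun x _ => ?_
        rw [← add_mul]
        congr 1
        simp only [ext]
        split_ifs
        · rfl
        · simp
      map_smul' := by
        intro c f
        funext q
        show four (ext (c • f)) q.1 = c * four (ext f) q.1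
        unfold four
        rw [mul_sum]
        refine sum_congr rfl fun x _ => ?_
        rw [← mul_assoc]
        congr 1
        simp only [ext]
        split_ifs
        · rfl
        · simp }
  have hrk : Module.finrank ℝ (Q → ℝ) < Module.finrank ℝ (B → ℝ) := by
    rw [Module.finrank_fintype_fun_eq_card, Module.finrank_fintype_fun_eq_card,
      Fintype.card_coe, Fintype.card_coe]
    exact hcon
  have hker := LinearMap.ker_ne_bot_of_finrank_lt (f := L) hrk
  obtain ⟨f, hf, hf0⟩ := (Submodule.ne_bot_iff _).1 hker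
  have hLf : ∀ q ∈ Q, four (ext f) q = 0 := by
    intro q hq
    exact congrFun (LinearMap.mem_ker.1 hf) ⟨q, hq⟩
  set F := ext f with hF
  have hFB : ∀ x, x ∉ B → F x = 0 := by
    intro x hx
    simp only [hF, ext]
    rw [dif_neg hx]
  -- the energy
  have e0 := four_sq F 0
  have e1 : ∀ w : V (2 * m + 1), w ≠ 0 → ∑ q : G (2 * m + 1), four F q ^ 2 * (chi (dot q (K w)) : ℝ) = 0 := by
    intro w hw
    rw [four_sq]
    rw [sum_eq_zero, mul_zero]
    intro x _
    by_cases hx : x ∈ B
    · rw [hFB _ (hB x hx w hw), mul_zero]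
    · rw [hFB _ hx, zero_mul]
  have e2 : ∑ q : G (2 * m + 1), four F q ^ 2 * ((S q : ℝ) - 1) = 0 := by
    have h1 : ∀ q : G (2 * m + 1), four F q ^ 2 * ((S q : ℝ) - 1) =
        ∑ w ∈ (univ : Finset (V (2 * m + 1))).erase 0, four F q ^ 2 * (chi (dot q (K w)) : ℝ) := by
      intro q
      have h2 : (S q : ℝ) - 1 = ∑ w ∈ (univ : Finset (V (2 * m + 1))).erase 0, (chi (dot q (K w)) : ℝ) := by
        unfold S
        push_cast
        rw [← sum_erase_add _ _ (mem_univ (0 : V (2 * m + 1))), K_zero, dot_zero, chi_zero]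
        push_cast
        ring
      rw [h2, mul_sum]
    rw [sum_congr rfl fun q _ => h1 q, sum_comm]
    exact sum_eq_zero fun w hw => e1 w (ne_of_mem_erase hw)
  have e3 : ∀ q : G (2 * m + 1), four F q ^ 2 * ((S q : ℝ) - 1) ≤ 0 := by
    intro q
    by_cases hq : 0 < S q
    · rw [hLf q (by simp [Q, hq])]
      simp
    · have h1 : (S q : ℝ) ≤ 0 := by
        have : S q ≤ 0 := not_lt.1 hq
        exact_mod_cast this
      have h2 : 0 ≤ four F q ^ 2 := sq_nonneg _
      nlinarith
  have e4 : ∀ q : G (2 * m + 1), four F q = 0 := by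
    intro q
    have h1 := (sum_eq_zero_iff_of_nonpos fun q _ => e3 q).1 e2 q (mem_univ q)
    by_cases hq : 0 < S q
    · exact hLf q (by simp [Q, hq])
    · have h2 : (S q : ℝ) ≤ 0 := by
        have : S q ≤ 0 := not_lt.1 hq
        exact_mod_cast this
      rcases mul_eq_zero.1 h1 with h3 | h3
      · exact pow_eq_zero_iff (two_ne_zero) |>.1 h3
      · linarith
  have e5 : (Fintype.card (G (2 * m + 1)) : ℝ) * ∑ x, F x * F x = 0 := by
    have h1 : ∑ x, F x * F (x + K 0) = ∑ x, F x * F x := by
      simp only [K_zero, add_zero]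
    rw [← h1, ← e0]
    exact sum_eq_zero fun q _ => by rw [e4 q]; simp
  have e6 : ∑ x, F x * F x = 0 := by
    rcases mul_eq_zero.1 e5 with h | h
    · exfalso
      have := card_G (2 * m + 1)
      have h' : Fintype.card (G (2 * m + 1)) = 0 := by exact_mod_cast h
      omega
    · exact h
  apply hf0
  funext x
  have h1 := (sum_eq_zero_iff_of_nonneg fun x _ => mul_self_nonneg (F x)).1 e6 x.1 (mem_univ _)
  have h2 : F x.1 = 0 := mul_self_eq_zero.1 h1
  have h3 : F x.1 = f x := by
    simp only [hF, ext]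
    rw [dif_pos x.2]
  rw [← h3, h2]
  rfl

/-- the bound with edges -/
theorem card_le_edges (m : ℕ) (B : Finset (G (2 * m + 1))) :
    B.card ≤ ((univ : Finset (G (2 * m + 1))).filter fun q => 0 < S q).card +
      ∑ v ∈ (univ : Finset (V (2 * m + 1))).erase 0, (B.filter fun x => x + K v ∈ B).card := by
  classical
  set R : Finset (G (2 * m + 1)) :=
    ((univ : Finset (V (2 * m + 1))).erase 0).biUnion fun v => B.filter fun x => x + K v ∈ B with hR
  have h1 : R.card ≤
      ∑ v ∈ (univ : Finset (V (2 * m + 1))).erase 0, (B.filter fun x => x + K v ∈ B).card :=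
    card_biUnion_le
  have h2 := indep_card_le m (B \ R) (by
    intro x hx v hv hxv
    rw [mem_sdiff] at hx hxv
    apply hx.2
    rw [hR, mem_biUnion]
    exact ⟨v, mem_erase.2 ⟨hv, mem_univ _⟩, mem_filter.2 ⟨hx.1, hxv.1⟩⟩)
  have h3 : B.card ≤ (B \ R).card + R.card := by
    have := card_le_card_sdiff_add_card (s := B) (t := R)
    omega
  omega

end Pool.Agent.Lib.MP_018e2a_an.INV
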